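import Pool.Agent.W785.FD.Stms

/-!
MP_024e69_an, subtask FD-STR: strong upper gradients suffice.
-/

set_option autoImplicit false

open MeasureTheory Metric Set Filter
open scoped ENNReal NNReal Topology

namespace Pool.Agent.W683.FD.Str

open Pool.Agent.W785.FD

theorem small_eps {a b H : ℝ≥0∞} (hab : a < b) (hH : H ≠ ∞) :
    ∃ e : ℝ≥0, 0 < e ∧ a + (e : ℝ≥0∞) * H < b := by
  obtain ⟨r, hr, hrb⟩ := ENNReal.lt_iff_exists_add_pos_lt.1 hab
  lift H to ℝ≥0 using hH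
  refine ⟨r / (H + 1), by positivity, lt_of_le_of_lt (add_le_add le_rfl ?_) hrb⟩
  rw [← ENNReal.coe_mul, ENNReal.coe_le_coe, div_mul_eq_mul_div]
  rw [div_le_iff₀ (by positivity)]
  exact mul_le_mul_right (le_self_add) r

theorem main {X : Type*} [MetricSpace X] [ProperSpace X] [MeasurableSpace X] [BorelSpace X]
    (μ : Measure X) (p : ℝ) (hp : 1 < p) (h : S_WU μ p) : S_STR μ p := by
  intro u t hu
  unfold En at hu
  obtain ⟨g0, hg0⟩ := iInf_lt_iff.1 hu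
  obtain ⟨hW, hlt⟩ := iInf_lt_iff.1 hg0
  obtain ⟨hm, h0, hh0m, hh0f, hh0⟩ := (h u g0).1 hW
  have hp0 : 0 < p := by linarith
  have hA : (∫⁻ x, g0 x ^ p ∂μ) ^ (1 / p) < t ^ (1 / p) :=
    ENNReal.rpow_lt_rpow hlt (by positivity)
  have hH : (∫⁻ x, h0 x ^ p ∂μ) ^ (1 / p) ≠ ∞ :=
    (ENNReal.rpow_lt_top_of_nonneg (by positivity) hh0f.ne).ne
  obtain ⟨e, he, hlt'⟩ := small_eps hA hH
  refine ⟨fun x => g0 x + (e : ℝ≥0∞) * h0 x, ⟨hm.add (hh0m.const_mul _), ?_⟩, ?_⟩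
  · intro c
    rcases hh0 c with h1 | h1
    · unfold CrvIneq at *
      refine h1.trans ?_
      unfold Crv.int
      exact lintegral_mono fun s => le_self_add
    · unfold CrvIneq
      have h2 : c.int (fun x => g0 x + (e : ℝ≥0∞) * h0 x) = ∞ := by
        have h3 : (e : ℝ≥0∞) * c.int h0 ≤ c.int (fun x => g0 x + (e : ℝ≥0∞) * h0 x) := by
          unfold Crv.int
          rw [← lintegral_const_mul' _ _ ENNReal.coe_ne_top]
          exact lintegral_mono fun s => le_add_self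
        rw [h1, ENNReal.mul_top (by exact_mod_cast he.ne')] at h3
        exact top_le_iff.1 h3
      rw [h2]
      exact le_top
  · have h1 := ENNReal.lintegral_Lp_add_le (μ := μ) (f := g0)
      (g := fun x => (e : ℝ≥0∞) * h0 x) hm.aemeasurable (hh0m.const_mul _).aemeasurable hp.le
    have h2 : (∫⁻ x, ((e : ℝ≥0∞) * h0 x) ^ p ∂μ) ^ (1 / p) =
        (e : ℝ≥0∞) * (∫⁻ x, h0 x ^ p ∂μ) ^ (1 / p) := by
      have h3 : ∀ x, ((e : ℝ≥0∞) * h0 x) ^ p = (e : ℝ≥0∞) ^ p * h0 x ^ p := fun x =>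
        ENNReal.mul_rpow_of_nonneg _ _ hp0.le
      simp_rw [h3]
      rw [lintegral_const_mul' _ _ (ENNReal.rpow_lt_top_of_nonneg hp0.le ENNReal.coe_ne_top).ne,
        ENNReal.mul_rpow_of_nonneg _ _ (by positivity), ← ENNReal.rpow_mul,
        mul_one_div_cancel hp0.ne', ENNReal.rpow_one]
    rw [h2] at h1
    have h4 := lt_of_le_of_lt h1 hlt'
    have h5 : (∫⁻ x, (g0 x + (e : ℝ≥0∞) * h0 x) ^ p ∂μ) ^ (1 / p) < t ^ (1 / p) := h4
    exact (ENNReal.rpow_lt_rpow_iff (by positivity)).1 h5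

end Pool.Agent.W683.FD.Str
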